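import Mathlib
import Pool.Agent.TH484.PH.Main

set_option autoImplicit false

/-!
A quantitative bound for the total influence of the signs of functions whose differences of a given
order have constant sign (after `Pool.Agent.TH484.PH.infl`).
-/

namespace Pool.Agent.X79.HJ

open Finset Pool.Agent.TH484.PH

theorem inflq (k : ℕ) : ∀ (E : Type) [Fintype E] [DecidableEq E]
    (K : Finset E) (f : Finset E → Prop), 1 ≤ K.card → Cx k f →
      ∑ e ∈ K, (Inf f e : ℝ) ≤ (K.card : ℝ) ^ (1 - 1 / 2 ^ k : ℝ) * 2 ^ Fintype.card E := by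
  induction k with
  | zero =>
    intro E _ _ K f _ hf
    classical
    have h1 : ∀ e ∈ K, (Inf f e : ℝ) = 0 := by
      intro e _
      have : Inf f e = 0 := by
        unfold Inf
        rw [card_eq_zero]
        ext A
        rw [mem_filter]
        constructor
        · intro h
          exact absurd (hf _ _) h.2.2
        · intro h
          exact absurd h (notMem_empty A)
      rw [this, Nat.cast_zero]
    rw [sum_congr rfl h1, sum_const_zero]
    positivity
  | succ k ih =>
    intro E _ _ K f hK hf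
    classical
    choose g hg1 hg2 hg3 using hf
    obtain ⟨n, hn⟩ : ∃ n : ℝ, n = K.card := ⟨_, rfl⟩
    obtain ⟨b, hb⟩ : ∃ b : ℝ, b = n ^ (1 - 1 / 2 ^ k : ℝ) := ⟨_, rfl⟩
    obtain ⟨b', hb'⟩ : ∃ b' : ℝ, b' = n ^ (1 - 1 / 2 ^ (k + 1) : ℝ) := ⟨_, rfl⟩
    obtain ⟨W, hW⟩ : ∃ W : ℝ, W = 2 ^ Fintype.card E := ⟨_, rfl⟩
    obtain ⟨S, hS⟩ : ∃ S : ℝ, S = ∑ e ∈ K, (Inf f e : ℝ) := ⟨_, rfl⟩
    have hW0 : 0 < W := by rw [hW]; positivity
    have hn1 : 1 ≤ n := by rw [hn]; exact_mod_cast hK
    have hn0 : 0 < n := by linarith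
    have hb1 : 1 ≤ b := by
      rw [hb]
      refine Real.one_le_rpow hn1 ?_
      have : (1 : ℝ) / 2 ^ k ≤ 1 := by
        rw [div_le_one (by positivity)]
        exact one_le_pow₀ (by norm_num)
      linarith
    have hbb : b' ^ 2 = n * b := by
      rw [hb', hb, ← Real.rpow_natCast, ← Real.rpow_mul hn0.le]
      have h1 : n * n ^ (1 - 1 / 2 ^ k : ℝ) = n ^ (1 : ℝ) * n ^ (1 - 1 / 2 ^ k : ℝ) := by
        rw [Real.rpow_one]
      rw [h1, ← Real.rpow_add hn0]
      congr 1
      push_cast
      rw [pow_succ]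
      field_simp
      ring
    have hb'0 : 0 ≤ b' := by rw [hb']; positivity
    have hcardW : ∑ _A : Finset E, (1 : ℝ) = W := by
      rw [sum_const, card_univ, Fintype.card_finset, nsmul_eq_mul, mul_one, hW]
      push_cast
      rfl
    -- first identity
    have e1 : 2 * S = ∑ A : Finset E, sg f A * ∑ e ∈ K, xc e A * sg (g e) A := by
      have h3 : ∑ A : Finset E, sg f A * ∑ e ∈ K, xc e A * sg (g e) A =
          ∑ e ∈ K, ∑ A, sg f A * (xc e A * sg (g e) A) := by
        rw [sum_comm]
        refine sum_congr rfl fun A _ => ?_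
        rw [mul_sum]
      rw [h3, hS, mul_sum]
      refine sum_congr rfl fun e _ => ?_
      rw [key1 f (g e) e (hg2 e) (hg3 e)]
    -- second moment
    have e2 : ∑ A : Finset E, (∑ e ∈ K, xc e A * sg (g e) A) ^ 2 ≤ n * W + 2 * (n * (b * W)) := by
      have h3 : ∑ A : Finset E, (∑ e ∈ K, xc e A * sg (g e) A) ^ 2 =
          ∑ e ∈ K, ∑ e' ∈ K, ∑ A, (xc e A * sg (g e) A) * (xc e' A * sg (g e') A) := by
        have h4 : ∀ A : Finset E, (∑ e ∈ K, xc e A * sg (g e) A) ^ 2 =
            ∑ e ∈ K, ∑ e' ∈ K, (xc e A * sg (g e) A) * (xc e' A * sg (g e') A) := by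
          intro A
          rw [sq, sum_mul_sum]
        rw [sum_congr rfl fun A _ => h4 A, sum_comm]
        refine sum_congr rfl fun e _ => ?_
        rw [sum_comm]
      rw [h3]
      have h5 : ∀ e ∈ K, ∑ e' ∈ K, ∑ A, (xc e A * sg (g e) A) * (xc e' A * sg (g e') A) ≤
          W + 2 * (b * W) := by
        intro e he
        have h6 : ∀ e' ∈ K, ∑ A, (xc e A * sg (g e) A) * (xc e' A * sg (g e') A) ≤
            (if e' = e then W else 0) + 2 * (Inf (g e) e' : ℝ) := by
          intro e' _
          by_cases h : e' = e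
          · rw [if_pos h, h]
            have h7 : ∑ A, (xc e A * sg (g e) A) * (xc e A * sg (g e) A) = W := by
              rw [← hcardW]
              refine sum_congr rfl fun A _ => ?_
              have a := xc_sq e A
              have b := sg_sq (g e) A
              calc (xc e A * sg (g e) A) * (xc e A * sg (g e) A) = xc e A ^ 2 * sg (g e) A ^ 2 := by
                    ring
                _ = 1 := by rw [a, b]; norm_num
            rw [h7]
            have : (0 : ℝ) ≤ (Inf (g e) e : ℝ) := Nat.cast_nonneg _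
            linarith
          · rw [if_neg h, zero_add]
            exact key2 (g e) (g e') e e' (Ne.symm h) (hg2 e')
        refine (sum_le_sum h6).trans ?_
        rw [sum_add_distrib, sum_ite_eq' K e, if_pos he, ← mul_sum]
        have h8 := ih E K (g e) hK (hg1 e)
        rw [← hn, ← hW, ← hb] at h8
        linarith
      refine (sum_le_sum h5).trans (le_of_eq ?_)
      rw [sum_const, nsmul_eq_mul, ← hn]
      ring
    have e3 : ∑ A : Finset E, sg f A ^ 2 = W := by
      rw [← hcardW]
      exact sum_congr rfl fun A _ => sg_sq f A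
    have e4 : (2 * S) ^ 2 ≤ W * (n * W + 2 * (n * (b * W))) := by
      rw [e1]
      refine (sum_mul_sq_le_sq_mul_sq univ (sg f) _).trans ?_
      rw [e3]
      exact mul_le_mul_of_nonneg_left e2 hW0.le
    rw [← hS, ← hn, ← hW, ← hb']
    refine abs_le_of_sq_le_sq' ?_ (by positivity) |>.2
    rw [mul_pow, hbb]
    have h9 : n * W * W ≤ b * (n * W * W) := by
      have : 0 ≤ n * W * W := by positivity
      nlinarith
    nlinarith

/-- a function whose differences of order between `1` and `k` have constant sign -/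
theorem reg_infl {E : Type} [Fintype E] [DecidableEq E] {k j : ℕ} (hj : 1 ≤ j) (hjk : j ≤ k)
    {h : Finset E → ℝ} (hh : Reg j h) (K : Finset E) (hK : 1 ≤ K.card) :
    ∑ e ∈ K, (Inf (fun A => 0 < h A) e : ℝ) ≤
      (K.card : ℝ) ^ (1 - 1 / 2 ^ k : ℝ) * 2 ^ Fintype.card E := by
  obtain ⟨j', rfl⟩ : ∃ j', j = j' + 1 := ⟨j - 1, by omega⟩
  refine (inflq (j' + 1) E K _ hK (cx_of_reg j' h hh)).trans ?_
  refine mul_le_mul_of_nonneg_right ?_ (by positivity)
  refine Real.rpow_le_rpow_of_exponent_le (by exact_mod_cast hK) ?_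
  have : (1 : ℝ) / 2 ^ k ≤ 1 / 2 ^ (j' + 1) :=
    one_div_le_one_div_of_le (by positivity) (pow_le_pow_right₀ (by norm_num) hjk)
  linarith

end Pool.Agent.X79.HJ
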