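import Mathlib
import Pool.Agent.TH484.PH.Main
import Pool.Agent.X79.HJ.Q

set_option autoImplicit false

/-!
Families of subsets of `[N]^d` defined by functions of low average sensitivity near the diagonal
and by polynomials with values in a finite abelian group (after `Pool.Agent.TH484.PH.main`).
-/

namespace Pool.Agent.X79.HJ

open Finset Pool.Agent.TH484.PH Pool.Agent.H720R3

open Classical in
/-- the number of sets `A`, `e ∉ A`, such that `f A` and `f (A ∪ {e})` are different -/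
noncomputable def infl {E τ : Type} [Fintype E] [DecidableEq E] (f : Finset E → τ) (e : E) : ℕ :=
  (univ.filter (fun A : Finset E => e ∉ A ∧ f A ≠ f (insert e A))).card

/-- a change along an increasing path -/
lemma path' {E τ : Type} [DecidableEq E] (f : Finset E → τ) (A B : Finset E) :
    f A ≠ f (A ∪ B) → ∃ e ∈ B, ∃ X, A ⊆ X ∧ X ⊆ A ∪ B ∧ e ∉ X ∧ f X ≠ f (insert e X) := by
  induction B using Finset.induction_on with
  | empty =>
    intro h
    rw [union_empty] at h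
    exact absurd rfl h
  | insert b B hb ih =>
    intro h
    by_cases h1 : f A = f (A ∪ B)
    · rw [h1, union_insert] at h
      have h2 : b ∉ A ∪ B := by
        intro h3
        rw [insert_eq_of_mem h3] at h
        exact h rfl
      refine ⟨b, mem_insert_self b B, A ∪ B, subset_union_left, ?_, h2, h⟩
      exact union_subset_union_right (subset_insert b B)
    · obtain ⟨e, he, X, h2, h3, h4, h5⟩ := ih h1
      exact ⟨e, mem_insert_of_mem he, X, h2,
        h3.trans (union_subset_union_right (subset_insert b B)), h4, h5⟩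

/-- the number of sets which avoid `C` and have a change of `f` inside `C` above them -/
lemma count' {E τ : Type} [Fintype E] [DecidableEq E] (f : Finset E → τ) (C : Finset E)
    (Q : Finset (Finset E)) (hQ : ∀ A ∈ Q, A ∩ C = ∅ ∧ ∃ B ⊆ C, f A ≠ f (A ∪ B)) :
    Q.card ≤ ∑ e ∈ C, infl f e := by
  classical
  have h1 : Q ⊆ C.biUnion (fun e => (univ.filter (fun X : Finset E =>
      e ∉ X ∧ f X ≠ f (insert e X))).image (fun X => X \ C)) := by
    intro A hA
    obtain ⟨h2, B, hB, h3⟩ := hQ A hA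
    obtain ⟨e, he, X, h4, h5, h6, h7⟩ := path' f A B h3
    rw [mem_biUnion]
    refine ⟨e, hB he, ?_⟩
    rw [mem_image]
    refine ⟨X, mem_filter.2 ⟨mem_univ _, h6, h7⟩, ?_⟩
    ext x
    rw [mem_sdiff]
    constructor
    · rintro ⟨h8, h9⟩
      exact (mem_union.1 (h5 h8)).resolve_right fun h10 => h9 (hB h10)
    · intro h8
      refine ⟨h4 h8, fun h9 => ?_⟩
      have : x ∈ A ∩ C := mem_inter.2 ⟨h8, h9⟩
      rw [h2] at this
      exact notMem_empty x this
  refine (card_le_card h1).trans (card_biUnion_le.trans (sum_le_sum fun e _ => ?_))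
  refine card_image_le.trans (le_of_eq ?_)
  unfold infl
  congr 1

theorem gen (d : ℕ) (hd : 1 ≤ d) (D : ℕ) (G : Type) [AddCommGroup G] [Finite G] :
    ∃ n : ℕ, 1 ≤ n ∧ ∀ δ : ℝ, 0 < δ → ∃ η : ℝ, 0 < η ∧ ∃ M₀ : ℕ, ∀ M : ℕ, M₀ ≤ M →
      ∀ (N : ℕ) (T : Fin M → Finset (Fin N)), (∀ j, (T j).card = n) →
        (∀ j k, j ≠ k → Disjoint (T j) (T k)) → ∀ (τ : Type) (f : Finset (Fin d → Fin N) → τ)
        (c : Finset (Fin d → Fin N) → G) (R : τ → G → Prop)
        (F S : Finset (Finset (Fin d → Fin N))),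
        (∑ j : Fin M, ∑ e ∈ pw d (T j), (infl f e : ℝ) ≤ η * M * 2 ^ (N ^ d)) →
        (∀ A, A ∈ F ↔ R (f A) (poly D c A)) → δ * (2 : ℝ) ^ (N ^ d) ≤ F.card →
          ((F \ S).card : ℝ) ≤ η * (2 : ℝ) ^ (N ^ d) →
            ∃ A ∈ S, ∃ γ : Finset (Fin N), γ.Nonempty ∧ Disjoint A (pw d γ) ∧
              A ∪ pw d γ ∈ S := by
  classical
  have := Fintype.ofFinite G
  obtain ⟨n, hn1, hret⟩ := ret d hd D G
  refine ⟨n, hn1, fun δ hδ => ?_⟩
  obtain ⟨c₀, hc₀⟩ : ∃ c₀ : ℕ, c₀ = n ^ d := ⟨_, rfl⟩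
  obtain ⟨M1, hM1⟩ := exists_nat_gt ((4 / δ ^ 2) * 2 ^ c₀)
  refine ⟨δ / (8 * 2 ^ c₀), by positivity, M1,
    fun M hMM N T hTc hTd τ f c R F S hinf hF hFc hFS => ?_⟩
  have hM : (4 / δ ^ 2) * 2 ^ c₀ < (M : ℝ) := by
    have : (M1 : ℝ) ≤ M := by exact_mod_cast hMM
    linarith
  by_contra hgood
  have hCc : ∀ j, (pw d (T j)).card = n ^ d := by
    intro j
    rw [pw, Fintype.card_piFinset]
    simp [hTc]
  have hCd : ∀ j k, j ≠ k → Disjoint (pw d (T j)) (pw d (T k)) := by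
    intro j k hjk
    rw [Finset.disjoint_left]
    intro x hx hx'
    rw [mem_pw] at hx hx'
    exact (Finset.disjoint_left.1 (hTd j k hjk)) (hx ⟨0, hd⟩) (hx' ⟨0, hd⟩)
  obtain ⟨μ, hμ⟩ : ∃ μ : ℝ, μ = (M : ℝ) / 2 ^ c₀ := ⟨_, rfl⟩
  have hμ1 : 4 / δ ^ 2 < μ := by rw [hμ, lt_div_iff₀ (by positivity)]; exact hM
  have hμ0 : 0 < μ := lt_trans (by positivity) hμ1
  obtain ⟨W, hW⟩ : ∃ W : ℝ, W = 2 ^ Fintype.card (Fin d → Fin N) := ⟨_, rfl⟩
  have hWe : W = (2 : ℝ) ^ (N ^ d) := by rw [hW]; simp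
  have hW0 : 0 < W := by rw [hW]; positivity
  rw [← hWe] at hFc hFS hinf
  have hlow : μ * F.card - Real.sqrt μ * W ≤ ∑ A ∈ F, cnt (fun j => pw d (T j)) (fun _ => ∅) A := by
    have := conc (c := c₀) (fun j => pw d (T j)) (fun _ => ∅) (fun j => empty_subset _)
      (fun j => by rw [hCc, hc₀]) hCd F
    rw [← hμ, ← hW] at this
    exact this
  have hret' : ∀ (j : Fin M) (A : Finset (Fin d → Fin N)), A ∩ pw d (T j) = ∅ →
      ∃ γ ⊆ T j, γ.Nonempty ∧ poly D c (A ∪ pw d γ) = poly D c A := by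
    intro j A hA
    exact hret N c (T j) A (by rw [hTc]) hA
  choose! γ hγ hγne hγe using hret'
  have hsubC : ∀ (j : Fin M) (A : Finset (Fin d → Fin N)), A ∩ pw d (T j) = ∅ →
      pw d (γ j A) ⊆ pw d (T j) := by
    intro j A hA x hx
    rw [mem_pw]
    rw [mem_pw] at hx
    exact fun i => hγ j A hA (hx i)
  -- the sets with a change
  obtain ⟨Q, hQ⟩ : ∃ Q : Fin M → Finset (Finset (Fin d → Fin N)), Q = fun j =>
      univ.filter (fun A => A ∩ pw d (T j) = ∅ ∧ f A ≠ f (A ∪ pw d (γ j A))) :=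
    ⟨_, rfl⟩
  have hQc : ∀ j, (Q j).card ≤ ∑ e ∈ pw d (T j), infl f e := by
    intro j
    refine count' f (pw d (T j)) (Q j) fun A hA => ?_
    rw [hQ, mem_filter] at hA
    exact ⟨hA.2.1, pw d (γ j A), hsubC j A hA.2.1, hA.2.2⟩
  -- pairs
  have hpair : ∀ (j : Fin M), ∀ A ∈ F, A ∩ pw d (T j) = ∅ →
      A ∈ F \ S ∨ A ∪ pw d (γ j A) ∈ F \ S ∨ A ∈ Q j := by
    intro j A hA hAj
    by_contra hcon
    rw [not_or, not_or, mem_sdiff, mem_sdiff, not_and, not_not, not_and, not_not] at hcon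
    have h1 := hcon.1 hA
    have h0 : f A = f (A ∪ pw d (γ j A)) := by
      by_contra h4
      apply hcon.2.2
      rw [hQ, mem_filter]
      exact ⟨mem_univ _, hAj, h4⟩
    have h2 : A ∪ pw d (γ j A) ∈ F := by
      rw [hF, hγe j A hAj, ← h0]
      exact (hF A).1 hA
    have h3 := hcon.2.1 h2
    refine hgood ⟨A, h1, γ j A, hγne j A hAj, ?_, h3⟩
    exact Finset.disjoint_of_subset_right (hsubC j A hAj) (disjoint_iff_inter_eq_empty.2 hAj)
  have hone : ∀ j : Fin M, (F.filter fun A => A ∩ pw d (T j) = ∅).card ≤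
      2 * (F \ S).card + ∑ e ∈ pw d (T j), infl f e := by
    intro j
    have h1 : (F.filter fun A => A ∩ pw d (T j) = ∅) ⊆
        ((F \ S) ∪ (F.filter fun A => A ∩ pw d (T j) = ∅ ∧ A ∪ pw d (γ j A) ∈ F \ S)) ∪ Q j := by
      intro A hA
      rw [mem_filter] at hA
      rcases hpair j A hA.1 hA.2 with h | h | h
      · exact mem_union_left _ (mem_union_left _ h)
      · exact mem_union_left _ (mem_union_right _ (mem_filter.2 ⟨hA.1, hA.2, h⟩))
      · exact mem_union_right _ h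
    have h2 : (F.filter fun A => A ∩ pw d (T j) = ∅ ∧ A ∪ pw d (γ j A) ∈ F \ S).card
        ≤ (F \ S).card := by
      refine card_le_card_of_injOn (fun A => A ∪ pw d (γ j A)) ?_ ?_
      · intro A hA
        exact (mem_filter.1 (mem_coe.1 hA)).2.2
      · intro A hA B hB hAB
        have hA' := (mem_filter.1 (mem_coe.1 hA)).2.1
        have hB' := (mem_filter.1 (mem_coe.1 hB)).2.1
        have key : ∀ X : Finset (Fin d → Fin N), X ∩ pw d (T j) = ∅ →
            (X ∪ pw d (γ j X)) \ pw d (T j) = X := by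
          intro X hX
          rw [union_sdiff_distrib, sdiff_eq_empty_iff_subset.2 (hsubC j X hX), union_empty]
          exact sdiff_eq_self_iff_disjoint.2 (disjoint_iff_inter_eq_empty.2 hX)
        have hAB' : A ∪ pw d (γ j A) = B ∪ pw d (γ j B) := hAB
        rw [← key A hA', ← key B hB', hAB']
    have h3 := (card_le_card h1).trans (card_union_le _ _)
    have h4 := card_union_le (F \ S) (F.filter fun A => A ∩ pw d (T j) = ∅ ∧
      A ∪ pw d (γ j A) ∈ F \ S)
    have h5 := hQc j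
    omega
  have hup : ∑ A ∈ F, cnt (fun j => pw d (T j)) (fun _ => ∅) A ≤
      M * (2 * (F \ S).card) + δ / (8 * 2 ^ c₀) * M * W := by
    unfold cnt
    rw [sum_comm]
    calc _ ≤ ∑ j : Fin M, ((2 * (F \ S).card : ℝ) + ∑ e ∈ pw d (T j), (infl f e : ℝ)) := by
          refine sum_le_sum fun j _ => ?_
          rw [Finset.sum_boole]
          exact_mod_cast hone j
      _ = M * (2 * (F \ S).card) + ∑ j, ∑ e ∈ pw d (T j), (infl f e : ℝ) := by
          rw [sum_add_distrib]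
          simp
      _ ≤ _ := add_le_add le_rfl hinf
  have h5 : μ * (δ * W) ≤ μ * F.card := mul_le_mul_of_nonneg_left hFc hμ0.le
  have hM0 : (M : ℝ) = μ * 2 ^ c₀ := by rw [hμ]; field_simp
  have h6 : (M : ℝ) * (2 * (F \ S).card) ≤ μ * δ / 4 * W := by
    calc (M : ℝ) * (2 * (F \ S).card) ≤ M * (2 * (δ / (8 * 2 ^ c₀) * W)) := by
          refine mul_le_mul_of_nonneg_left ?_ (Nat.cast_nonneg M)
          linarith
      _ = μ * δ / 4 * W := by
          rw [hM0]; field_simp; ring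
  have h6' : δ / (8 * 2 ^ c₀) * M * W ≤ μ * δ / 4 * W := by
    have h61 : δ / (8 * 2 ^ c₀) * M * W = μ * δ / 8 * W := by
      rw [hM0]
      field_simp
    rw [h61]
    have h63 : 0 ≤ μ * δ * W := by positivity
    linarith
  have h7 : μ * δ / 2 * W ≤ Real.sqrt μ * W := by linarith
  have h8 : μ * δ / 2 ≤ Real.sqrt μ := le_of_mul_le_mul_right h7 hW0
  have hs : Real.sqrt μ * Real.sqrt μ = μ := Real.mul_self_sqrt hμ0.le
  have hs0 : 0 < Real.sqrt μ := Real.sqrt_pos.2 hμ0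
  have h9 : Real.sqrt μ * δ ≤ 2 := by
    have : Real.sqrt μ * δ * Real.sqrt μ ≤ 2 * Real.sqrt μ := by
      calc Real.sqrt μ * δ * Real.sqrt μ = (Real.sqrt μ * Real.sqrt μ) * δ := by ring
        _ = μ * δ := by rw [hs]
        _ ≤ 2 * Real.sqrt μ := by linarith
    exact le_of_mul_le_mul_right this hs0
  have h10 : 2 / δ < Real.sqrt μ := by
    rw [Real.lt_sqrt (by positivity), div_pow]
    norm_num
    exact hμ1
  rw [div_lt_iff₀ hδ] at h10
  linarith

end Pool.Agent.X79.HJ
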