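import Mathlib
import Pool.Agent.X79.HJ.Gen

set_option autoImplicit false

/-!
Khrapchenko's bound relative to a set of variables, and the influences of tuples of functions.
-/

namespace Pool.Agent.X79.HJ

open Finset

section

variable {E : Type} [Fintype E] [DecidableEq E]

/-- the number of pairs `(A, A ∆ {e})` with `e ∈ K`, `A ∈ P`, `A ∆ {e} ∈ Q` -/
def edg (K : Finset E) (P Q : Finset (Finset E)) : ℕ :=
  ∑ e ∈ K, (P.filter fun A => symmDiff A {e} ∈ Q).card

/-- Khrapchenko's inequality -/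
def Khr (K : Finset E) (L : ℕ) (f : Finset E → Prop) : Prop :=
  ∀ P Q : Finset (Finset E), (∀ A ∈ P, f A) → (∀ A ∈ Q, ¬ f A) →
    (edg K P Q : ℝ) ^ 2 ≤ L * P.card * Q.card

lemma edg_comm (K : Finset E) (P Q : Finset (Finset E)) : edg K P Q = edg K Q P := by
  unfold edg
  refine sum_congr rfl fun e _ => ?_
  refine card_bij' (fun A _ => symmDiff A {e}) (fun A _ => symmDiff A {e}) ?_ ?_ ?_ ?_
  · intro A hA
    rw [mem_filter] at hA ⊢
    rw [symmDiff_symmDiff_cancel_right]
    exact ⟨hA.2, hA.1⟩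
  · intro A hA
    rw [mem_filter] at hA ⊢
    rw [symmDiff_symmDiff_cancel_right]
    exact ⟨hA.2, hA.1⟩
  · intro A _
    exact symmDiff_symmDiff_cancel_right _ _
  · intro A _
    exact symmDiff_symmDiff_cancel_right _ _

lemma Khr.not {K : Finset E} {L : ℕ} {f : Finset E → Prop} (h : Khr K L f) :
    Khr K L (fun A => ¬ f A) := by
  intro P Q hP hQ
  have := h Q P (fun A hA => not_not.1 (hQ A hA)) hP
  rw [edg_comm]
  linarith

lemma Khr.congr {K : Finset E} {L : ℕ} {f g : Finset E → Prop} (h : Khr K L f)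
    (hfg : ∀ A, f A ↔ g A) : Khr K L g :=
  fun P Q hP hQ => h P Q (fun A hA => (hfg A).2 (hP A hA)) (fun A hA h1 => hQ A hA ((hfg A).1 h1))

lemma Khr.const (K : Finset E) (p : Prop) : Khr K 0 (fun _ => p) := by
  intro P Q hP hQ
  have : edg K P Q = 0 := by
    unfold edg
    refine sum_eq_zero fun e _ => ?_
    rw [card_eq_zero]
    ext A
    rw [mem_filter]
    constructor
    · rintro ⟨h1, h2⟩
      exact absurd (hP A h1) (hQ _ h2)
    · intro h
      exact absurd h (notMem_empty A)
  rw [this]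
  simp

lemma Khr.lit_out {K : Finset E} {e : E} (he : e ∉ K) : Khr K 0 (fun A => e ∈ A) := by
  intro P Q hP hQ
  have : edg K P Q = 0 := by
    unfold edg
    refine sum_eq_zero fun e' he' => ?_
    rw [card_eq_zero]
    ext A
    rw [mem_filter]
    constructor
    · rintro ⟨h1, h2⟩
      refine absurd ?_ (hQ _ h2)
      show e ∈ symmDiff A {e'}
      rw [mem_symmDiff]
      left
      refine ⟨hP A h1, fun h3 => he ?_⟩
      rw [mem_singleton.1 h3]
      exact he'
    · intro h
      exact absurd h (notMem_empty A)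
  rw [this]
  simp

lemma Khr.lit {K : Finset E} {e : E} : Khr K 1 (fun A => e ∈ A) := by
  intro P Q hP hQ
  have h0 : ∀ e' ∈ K, e' ≠ e → (P.filter fun A => symmDiff A {e'} ∈ Q).card = 0 := by
    intro e' _ hne
    rw [card_eq_zero]
    ext A
    rw [mem_filter]
    constructor
    · rintro ⟨h1, h2⟩
      refine absurd ?_ (hQ _ h2)
      show e ∈ symmDiff A {e'}
      rw [mem_symmDiff]
      left
      refine ⟨hP A h1, fun h3 => hne ?_⟩
      rw [mem_singleton.1 h3]
    · intro h
      exact absurd h (notMem_empty A)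
  have h1 : edg K P Q ≤ (P.filter fun A => symmDiff A {e} ∈ Q).card := by
    unfold edg
    by_cases he : e ∈ K
    · rw [sum_eq_single e h0 (fun h => absurd he h)]
    · rw [sum_eq_zero fun e' he' => h0 e' he' fun h => he (h ▸ he')]
      exact Nat.zero_le _
  have h2 : (P.filter fun A => symmDiff A {e} ∈ Q).card ≤ P.card := card_filter_le _ _
  have h3 : (P.filter fun A => symmDiff A {e} ∈ Q).card ≤ Q.card := by
    refine card_le_card_of_injOn (fun A => symmDiff A {e}) ?_ ?_
    · intro A hA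
      exact (mem_filter.1 (mem_coe.1 hA)).2
    · intro A _ B _ hAB
      have := congrArg (fun X => symmDiff X {e}) hAB
      simpa [symmDiff_symmDiff_cancel_right] using this
  have h4 : (edg K P Q : ℝ) ≤ P.card := by exact_mod_cast h1.trans h2
  have h5 : (edg K P Q : ℝ) ≤ Q.card := by exact_mod_cast h1.trans h3
  have h6 : (0 : ℝ) ≤ edg K P Q := Nat.cast_nonneg _
  rw [Nat.cast_one, one_mul, sq]
  exact mul_le_mul h4 h5 h6 (Nat.cast_nonneg _)

lemma edg_split (K : Finset E) (P Q : Finset (Finset E)) (p : Finset E → Prop) [DecidablePred p] :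
    edg K P Q = edg K P (Q.filter p) + edg K P (Q.filter fun A => ¬ p A) := by
  unfold edg
  rw [← sum_add_distrib]
  refine sum_congr rfl fun e _ => ?_
  rw [← card_union_of_disjoint]
  · congr 1
    ext A
    simp only [mem_union, mem_filter]
    tauto
  · rw [Finset.disjoint_left]
    intro A hA hA'
    simp only [mem_filter] at hA hA'
    exact hA'.2.2 hA.2.2

lemma khr_arith (x y a b p q r : ℝ) (ha : 0 ≤ a) (hb : 0 ≤ b)
    (hp : 0 ≤ p) (hq : 0 ≤ q) (hr : 0 ≤ r) (h1 : x ^ 2 ≤ a * p * q) (h2 : y ^ 2 ≤ b * p * r) :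
    (x + y) ^ 2 ≤ (a + b) * p * (q + r) := by
  have h3 : 2 * (x * y) ≤ p * (a * r + b * q) := by
    refine abs_le_of_sq_le_sq' ?_ (by positivity) |>.2
    have h4 : (2 * (x * y)) ^ 2 = 4 * (x ^ 2 * y ^ 2) := by ring
    rw [h4]
    have h5 : x ^ 2 * y ^ 2 ≤ (a * p * q) * (b * p * r) :=
      mul_le_mul h1 h2 (sq_nonneg y) (by positivity)
    have h6 : 0 ≤ p ^ 2 * (a * r - b * q) ^ 2 := by positivity
    nlinarith
  nlinarith

lemma Khr.and {K : Finset E} {L M : ℕ} {f g : Finset E → Prop} (hf : Khr K L f) (hg : Khr K M g) :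
    Khr K (L + M) (fun A => f A ∧ g A) := by
  classical
  intro P Q hP hQ
  have h1 := hf P (Q.filter fun A => ¬ f A) (fun A hA => (hP A hA).1)
    (fun A hA => (mem_filter.1 hA).2)
  have h2 := hg P (Q.filter fun A => ¬ ¬ f A) (fun A hA => (hP A hA).2)
    (fun A hA h => hQ A (mem_filter.1 hA).1 ⟨not_not.1 (mem_filter.1 hA).2, h⟩)
  have h3 : (Q.card : ℝ) = (Q.filter fun A => ¬ f A).card + (Q.filter fun A => ¬ ¬ f A).card := by
    rw [← Nat.cast_add, card_filter_add_card_filter_not]
  rw [edg_split K P Q (fun A => ¬ f A), h3]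
  push_cast
  exact khr_arith _ _ _ _ _ _ _ (Nat.cast_nonneg _) (Nat.cast_nonneg _) (Nat.cast_nonneg _)
    (Nat.cast_nonneg _) (Nat.cast_nonneg _) h1 h2

lemma Khr.or {K : Finset E} {L M : ℕ} {f g : Finset E → Prop} (hf : Khr K L f) (hg : Khr K M g) :
    Khr K (L + M) (fun A => f A ∨ g A) := by
  refine (hf.not.and hg.not).not.congr fun A => ?_
  tauto

/-- the sets counted by the influence -/
lemma infl_le {τ : Type} (f : Finset E → τ) (e : E) (s : Finset (Finset E)) (φ : Finset E → Finset E)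
    (hφ : ∀ A, e ∉ A → f A ≠ f (insert e A) → φ A ∈ s)
    (hinj : ∀ A, e ∉ A → (φ A).erase e = A) : infl f e ≤ s.card := by
  classical
  unfold infl
  refine card_le_card_of_injOn φ ?_ ?_
  · intro A hA
    simp only [coe_filter, mem_univ, true_and, Set.mem_setOf_eq] at hA
    exact hφ A hA.1 hA.2
  · intro A hA B hB hAB
    simp only [coe_filter, mem_univ, true_and, Set.mem_setOf_eq] at hA hB
    rw [← hinj A hA.1, ← hinj B hB.1, hAB]

lemma symmDiff_eq_insert {A : Finset E} {e : E} (h : e ∉ A) : symmDiff A {e} = insert e A := by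
  ext x
  simp only [mem_symmDiff, mem_singleton, mem_insert]
  constructor
  · rintro (⟨h1, h2⟩ | ⟨h1, h2⟩)
    · exact Or.inr h1
    · exact Or.inl h1
  · rintro (h1 | h1)
    · right
      exact ⟨h1, h1 ▸ h⟩
    · left
      exact ⟨h1, fun h2 => h (h2 ▸ h1)⟩

lemma Khr.infl_le_edg (K : Finset E) (f : Finset E → Prop) [DecidablePred f] :
    ∑ e ∈ K, HJ.infl f e ≤ edg K (univ.filter f) (univ.filter fun A => ¬ f A) := by
  unfold edg
  refine sum_le_sum fun e _ => ?_
  refine infl_le f e _ (fun A => if f A then A else insert e A) ?_ ?_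
  · intro A hA1 hA2
    simp only [mem_filter, mem_univ, true_and]
    by_cases h : f A
    · simp only [if_pos h]
      refine ⟨h, ?_⟩
      rw [symmDiff_eq_insert hA1]
      intro h2
      exact hA2 (propext ⟨fun _ => h2, fun _ => h⟩)
    · simp only [if_neg h]
      have h2 : f (insert e A) := by
        by_contra h2
        exact hA2 (propext ⟨fun h3 => absurd h3 h, fun h3 => absurd h3 h2⟩)
      refine ⟨h2, ?_⟩
      rw [← symmDiff_eq_insert hA1, symmDiff_symmDiff_cancel_right]
      exact h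
  · intro X hX
    show (if f X then X else insert e X).erase e = X
    split_ifs
    · exact erase_eq_of_notMem hX
    · exact erase_insert hX

lemma Khr.infl_le_sqrt {K : Finset E} {L : ℕ} {f : Finset E → Prop} (hf : Khr K L f) :
    ∑ e ∈ K, (HJ.infl f e : ℝ) ≤ Real.sqrt L * 2 ^ Fintype.card E := by
  classical
  have h1 := Khr.infl_le_edg K f
  obtain ⟨P, hP⟩ : ∃ P : Finset (Finset E), P = univ.filter f := ⟨_, rfl⟩
  obtain ⟨Q, hQ⟩ : ∃ Q : Finset (Finset E), Q = univ.filter fun A => ¬ f A := ⟨_, rfl⟩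
  rw [← hP, ← hQ] at h1
  have h2 := hf P Q (fun A hA => by rw [hP, mem_filter] at hA; exact hA.2)
    (fun A hA => by rw [hQ, mem_filter] at hA; exact hA.2)
  obtain ⟨W, hW⟩ : ∃ W : ℝ, W = 2 ^ Fintype.card E := ⟨_, rfl⟩
  have h3 : ∀ X : Finset (Finset E), (X.card : ℝ) ≤ W := by
    intro X
    have h := card_le_univ X
    rw [Fintype.card_finset] at h
    rw [hW]
    exact_mod_cast h
  rw [← hW]
  have hW0 : 0 ≤ W := by rw [hW]; positivity
  have h4 : (edg K P Q : ℝ) ^ 2 ≤ (Real.sqrt L * W) ^ 2 := by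
    rw [mul_pow, Real.sq_sqrt (Nat.cast_nonneg L), sq W, ← mul_assoc]
    refine h2.trans ?_
    exact mul_le_mul (mul_le_mul_of_nonneg_left (h3 P) (Nat.cast_nonneg _)) (h3 Q)
      (Nat.cast_nonneg _) (mul_nonneg (Nat.cast_nonneg _) hW0)
  have h5 := abs_le_of_sq_le_sq' h4 (mul_nonneg (Real.sqrt_nonneg _) hW0) |>.2
  refine le_trans ?_ h5
  exact_mod_cast h1

/-- the influence of a pair -/
lemma infl_pair {τ σ : Type} (f : Finset E → τ) (g : Finset E → σ) (e : E) :
    infl (fun A => (f A, g A)) e ≤ infl f e + infl g e := by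
  classical
  have h1 : infl (fun A => (f A, g A)) e ≤
      ((univ.filter fun A : Finset E => e ∉ A ∧ f A ≠ f (insert e A)) ∪
        (univ.filter fun A : Finset E => e ∉ A ∧ g A ≠ g (insert e A))).card := by
    refine infl_le _ e _ id ?_ (fun A hA => erase_eq_of_notMem hA)
    intro A hA1 hA2
    simp only [id_eq, mem_union, mem_filter, mem_univ, true_and]
    by_cases h : f A = f (insert e A)
    · right
      refine ⟨hA1, fun h2 => hA2 ?_⟩
      simp only [Prod.mk.injEq]
      exact ⟨h, h2⟩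
    · left
      exact ⟨hA1, h⟩
  refine h1.trans ((card_union_le _ _).trans (le_of_eq ?_))
  unfold infl
  congr 1 <;> congr 1

/-- the influence of a tuple -/
lemma infl_pi {ι : Type} [Fintype ι] {τ : Type} (f : ι → Finset E → τ) (e : E) :
    infl (fun A i => f i A) e ≤ ∑ i, infl (f i) e := by
  classical
  have h1 : infl (fun A i => f i A) e ≤ (univ.biUnion fun i : ι =>
      univ.filter fun A : Finset E => e ∉ A ∧ f i A ≠ f i (insert e A)).card := by
    refine infl_le _ e _ id ?_ (fun A hA => erase_eq_of_notMem hA)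
    intro A hA1 hA2
    simp only [id_eq, mem_biUnion, mem_filter, mem_univ, true_and]
    by_contra h
    push Not at h
    exact hA2 (funext fun i => h i hA1)
  refine h1.trans (card_biUnion_le.trans (le_of_eq (sum_congr rfl fun i _ => ?_)))
  unfold infl
  congr 1

lemma infl_eq_Inf (f : Finset E → Prop) (e : E) :
    infl f e = Pool.Agent.TH484.PH.Inf f e := by
  unfold infl Pool.Agent.TH484.PH.Inf
  congr 1
  ext A
  simp only [mem_filter, ne_eq, eq_iff_iff]

end

end Pool.Agent.X79.HJ
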