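import Mathlib
import Pool.Agent.X79.HJ.Khr

set_option autoImplicit false

/-!
Functions of low average sensitivity: random blocks.
-/

namespace Pool.Agent.X79.HJ

open Finset Pool.Agent.TH484.PH Pool.Agent.H720R3

/-- the number of permutations which map `X` into `T` -/
lemma perm_count {N : ℕ} (T : Finset (Fin N)) (X : Finset (Fin N)) :
    N.descFactorial X.card *
      (univ.filter fun π : Equiv.Perm (Fin N) => ∀ a ∈ X, π a ∈ T).card ≤
      T.card ^ X.card * N.factorial := by
  classical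
  induction X using Finset.induction_on with
  | empty =>
    simp [Fintype.card_perm]
  | insert a X ha ih =>
    obtain ⟨P, hP⟩ : ∃ P : Finset (Equiv.Perm (Fin N)),
      P = univ.filter fun π : Equiv.Perm (Fin N) => ∀ a ∈ X, π a ∈ T := ⟨_, rfl⟩
    obtain ⟨P', hP'⟩ : ∃ P' : Finset (Equiv.Perm (Fin N)),
      P' = univ.filter fun π : Equiv.Perm (Fin N) => ∀ b ∈ insert a X, π b ∈ T := ⟨_, rfl⟩
    rw [← hP] at ih
    rw [← hP', card_insert_of_notMem ha]
    have h1 : (N - X.card) * P'.card ≤ T.card * P.card := by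
      have h2 : ((univ \ X) ×ˢ P').card ≤ (P.biUnion fun π =>
          (univ.filter fun b => π b ∈ T).image fun b => (b, π)).card := by
        refine card_le_card_of_injOn (fun z => (z.1, z.2 * Equiv.swap a z.1)) ?_ ?_
        · intro z hz
          rw [mem_coe, mem_product, mem_sdiff, hP', mem_filter] at hz
          obtain ⟨⟨-, hz1⟩, -, hz2⟩ := hz
          rw [mem_coe, mem_biUnion]
          refine ⟨z.2 * Equiv.swap a z.1, ?_, ?_⟩
          · rw [hP, mem_filter]
            refine ⟨mem_univ _, fun b hb => ?_⟩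
            rw [Equiv.Perm.mul_apply, Equiv.swap_apply_of_ne_of_ne]
            · exact hz2 b (mem_insert_of_mem hb)
            · exact fun h => ha (h ▸ hb)
            · exact fun h => hz1 (h ▸ hb)
          · rw [mem_image]
            refine ⟨z.1, ?_, rfl⟩
            rw [mem_filter, Equiv.Perm.mul_apply, Equiv.swap_apply_right]
            exact ⟨mem_univ _, hz2 a (mem_insert_self a X)⟩
        · intro z _ z' _ h
          simp only [Prod.mk.injEq] at h
          obtain ⟨h3, h4⟩ := h
          rw [h3] at h4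
          exact Prod.ext h3 (mul_right_cancel h4)
      have h3 : (P.biUnion fun π =>
          (univ.filter fun b => π b ∈ T).image fun b => (b, π)).card ≤ T.card * P.card := by
        refine card_biUnion_le.trans ?_
        rw [mul_comm, ← smul_eq_mul, ← sum_const]
        refine sum_le_sum fun π _ => card_image_le.trans ?_
        refine card_le_card_of_injOn π ?_ π.injective.injOn
        intro b hb
        exact (mem_filter.1 (mem_coe.1 hb)).2
      rw [card_product, card_sdiff_of_subset (subset_univ _), card_univ, Fintype.card_fin] at h2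
      exact h2.trans h3
    calc N.descFactorial (X.card + 1) * P'.card
        = N.descFactorial X.card * ((N - X.card) * P'.card) := by
          rw [Nat.descFactorial_succ]; ring
      _ ≤ N.descFactorial X.card * (T.card * P.card) := Nat.mul_le_mul_left _ h1
      _ = T.card * (N.descFactorial X.card * P.card) := by ring
      _ ≤ T.card * (T.card ^ X.card * N.factorial) := Nat.mul_le_mul_left _ ih
      _ = T.card ^ (X.card + 1) * N.factorial := by ring

/-- the real form -/
lemma perm_count' {N d n : ℕ} (hn : 1 ≤ n) (hN : 2 * d ≤ N) (hN1 : 1 ≤ N) (T : Finset (Fin N))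
    (hT : T.card = n) (X : Finset (Fin N)) (hX : X.card ≤ d) :
    ((univ.filter fun π : Equiv.Perm (Fin N) => ∀ a ∈ X, π a ∈ T).card : ℝ) ≤
      (2 * n) ^ d * N.factorial * (1 / (N : ℝ) ^ X.card) := by
  obtain ⟨P, hP⟩ : ∃ P : ℕ,
    P = (univ.filter fun π : Equiv.Perm (Fin N) => ∀ a ∈ X, π a ∈ T).card := ⟨_, rfl⟩
  obtain ⟨i, hi⟩ : ∃ i, i = X.card := ⟨_, rfl⟩
  have h1 := perm_count T X
  rw [← hP, ← hi, hT] at h1
  rw [← hP, ← hi]
  rw [← hi] at hX
  have h2 := Nat.pow_sub_le_descFactorial N i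
  have h3 : (((N + 1 - i : ℕ) : ℝ)) ^ i * P ≤ n ^ i * N.factorial := by
    have := (Nat.mul_le_mul_right P h2).trans h1
    exact_mod_cast this
  have h4 : (N : ℝ) / 2 ≤ ((N + 1 - i : ℕ) : ℝ) := by
    rw [Nat.cast_sub (by omega)]
    push_cast
    have : (2 : ℝ) * i ≤ N := by exact_mod_cast (by omega : 2 * i ≤ N)
    linarith
  have hNR : (0 : ℝ) < N := by exact_mod_cast hN1
  have h5 : ((N : ℝ) / 2) ^ i * P ≤ n ^ i * N.factorial :=
    (mul_le_mul_of_nonneg_right (pow_le_pow_left₀ (by positivity) h4 i) (Nat.cast_nonneg P)).trans h3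
  have hnR : (1 : ℝ) ≤ n := by exact_mod_cast hn
  have h6 : (2 * (n : ℝ)) ^ i ≤ (2 * n) ^ d := pow_le_pow_right₀ (by linarith) hX
  have h7 : (P : ℝ) ≤ (2 * n) ^ i * N.factorial * (1 / (N : ℝ) ^ i) := by
    have h8 : (P : ℝ) = ((N : ℝ) / 2) ^ i * P * (2 ^ i / (N : ℝ) ^ i) := by
      rw [div_pow]
      field_simp
    rw [h8]
    calc _ ≤ n ^ i * (N.factorial : ℝ) * (2 ^ i / (N : ℝ) ^ i) :=
          mul_le_mul_of_nonneg_right h5 (by positivity)
      _ = _ := by rw [mul_pow]; ring
  refine h7.trans ?_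
  refine mul_le_mul_of_nonneg_right ?_ (by positivity)
  exact mul_le_mul_of_nonneg_right h6 (Nat.cast_nonneg _)

/-- averaging -/
lemma exists_perm {N d n M : ℕ} (hn : 1 ≤ n) (hN : 2 * d ≤ N) (hN1 : 1 ≤ N)
    (T : Fin M → Finset (Fin N)) (hT : ∀ j, (T j).card = n) (w : (Fin d → Fin N) → ℝ)
    (hw : ∀ x, 0 ≤ w x) :
    ∃ π : Equiv.Perm (Fin N),
      ∑ j : Fin M, ∑ x ∈ pw d (univ.filter fun a => π a ∈ T j), w x ≤
        (2 * n) ^ d * M * ∑ x : Fin d → Fin N, w x * (1 / (N : ℝ) ^ (univ.image x).card) := by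
  classical
  have key : ∑ π : Equiv.Perm (Fin N),
      ∑ j : Fin M, ∑ x ∈ pw d (univ.filter fun a => π a ∈ T j), w x ≤
      ∑ _π : Equiv.Perm (Fin N),
        (2 * n) ^ d * M * ∑ x : Fin d → Fin N, w x * (1 / (N : ℝ) ^ (univ.image x).card) := by
    have h1 : ∀ π : Equiv.Perm (Fin N),
        ∑ j : Fin M, ∑ x ∈ pw d (univ.filter fun a => π a ∈ T j), w x =
        ∑ x, ∑ j : Fin M, if (∀ a ∈ univ.image x, π a ∈ T j) then w x else 0 := by
      intro π
      rw [sum_comm]
      refine sum_congr rfl fun j _ => ?_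
      rw [← sum_filter]
      refine sum_congr ?_ fun _ _ => rfl
      ext x
      simp only [mem_pw, mem_filter, mem_univ, true_and, mem_image, forall_exists_index,
        forall_apply_eq_imp_iff]
    rw [sum_congr rfl fun π _ => h1 π, sum_comm, sum_const, card_univ, Fintype.card_perm,
      Fintype.card_fin, nsmul_eq_mul, mul_sum, mul_sum]
    refine sum_le_sum fun x _ => ?_
    rw [sum_comm]
    have h2 : ∀ j : Fin M, ∑ π : Equiv.Perm (Fin N),
        (if (∀ a ∈ univ.image x, π a ∈ T j) then w x else 0) ≤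
        (2 * n) ^ d * N.factorial * (1 / (N : ℝ) ^ (univ.image x).card) * w x := by
      intro j
      rw [← sum_filter, sum_const, nsmul_eq_mul]
      refine mul_le_mul_of_nonneg_right ?_ (hw x)
      refine perm_count' hn hN hN1 (T j) (hT j) (univ.image x) ?_
      exact card_image_le.trans (by simp)
    refine (sum_le_sum fun j _ => h2 j).trans (le_of_eq ?_)
    rw [sum_const, card_univ, Fintype.card_fin, nsmul_eq_mul]
    ring
  obtain ⟨π, -, h⟩ := exists_le_of_sum_le (univ_nonempty) key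
  exact ⟨π, h⟩

theorem avg (d : ℕ) (hd : 1 ≤ d) (D : ℕ) (G : Type) [AddCommGroup G] [Finite G] (δ : ℝ)
    (hδ : 0 < δ) :
    ∃ η : ℝ, 0 < η ∧ ∃ N₀ : ℕ, ∀ N : ℕ, N₀ ≤ N →
      ∀ (τ : Type) (f : Finset (Fin d → Fin N) → τ)
        (c : Finset (Fin d → Fin N) → G) (R : τ → G → Prop)
        (F S : Finset (Finset (Fin d → Fin N))),
        (∀ i, 1 ≤ i → i ≤ d → (∑ x ∈ univ.filter (fun x : Fin d → Fin N => (univ.image x).card = i),
          (infl f x : ℝ)) ≤ η * N ^ i * 2 ^ (N ^ d)) →
        (∀ A, A ∈ F ↔ R (f A) (poly D c A)) → δ * (2 : ℝ) ^ (N ^ d) ≤ F.card →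
          ((F \ S).card : ℝ) ≤ η * (2 : ℝ) ^ (N ^ d) →
            ∃ A ∈ S, ∃ γ : Finset (Fin N), γ.Nonempty ∧ Disjoint A (pw d γ) ∧
              A ∪ pw d γ ∈ S := by
  classical
  obtain ⟨n, hn, hgen⟩ := gen d hd D G
  obtain ⟨η₀, hη₀, M₀, hM₀⟩ := hgen δ hδ
  have hnR : (1 : ℝ) ≤ n := by exact_mod_cast hn
  refine ⟨min η₀ (η₀ / ((2 * n) ^ d * (d + 1))), lt_min hη₀ (by positivity),
    max (M₀ * n) (max (2 * d) 1), fun N hN τ f c R F S hinf hF hFc hFS => ?_⟩
  have hN1 : M₀ * n ≤ N := le_trans (le_max_left _ _) hN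
  have hN2 : 2 * d ≤ N := le_trans (le_trans (le_max_left _ _) (le_max_right _ _)) hN
  have hN3 : 1 ≤ N := le_trans (le_trans (le_max_right _ _) (le_max_right _ _)) hN
  obtain ⟨M, hM⟩ : ∃ M, M = N / n := ⟨_, rfl⟩
  have hMM : M₀ ≤ M := by
    rw [hM]
    exact (Nat.le_div_iff_mul_le (by omega)).2 hN1
  have hMn : M * n ≤ N := by
    rw [hM]
    exact Nat.div_mul_le_self N n
  obtain ⟨π, hπ⟩ := exists_perm hn hN2 hN3 (T hMn) (card_T hMn) (fun x => (infl f x : ℝ))
    (fun x => Nat.cast_nonneg _)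
  have hNR : (0 : ℝ) < N := by exact_mod_cast hN3
  obtain ⟨W, hW⟩ : ∃ W : ℝ, W = 2 ^ (N ^ d) := ⟨_, rfl⟩
  have hW0 : 0 < W := by rw [hW]; positivity
  have hsum : ∑ x : Fin d → Fin N, (infl f x : ℝ) * (1 / (N : ℝ) ^ (univ.image x).card) ≤
      (d + 1) * (η₀ / ((2 * n) ^ d * (d + 1)) * W) := by
    rw [← sum_fiberwise_of_maps_to (s := (univ : Finset (Fin d → Fin N))) (t := range (d + 1))
      (g := fun x : Fin d → Fin N => (univ.image x).card)
      (fun x _ => mem_range.2 (Nat.lt_succ_of_le (card_image_le.trans (by simp))))]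
    have h1 : ∀ i ∈ range (d + 1), (∑ x ∈ univ.filter (fun x : Fin d → Fin N =>
        (univ.image x).card = i), (infl f x : ℝ) * (1 / (N : ℝ) ^ (univ.image x).card)) ≤
        η₀ / ((2 * n) ^ d * (d + 1)) * W := by
      intro i hi
      have h2 : (∑ x ∈ univ.filter (fun x : Fin d → Fin N =>
        (univ.image x).card = i), (infl f x : ℝ) * (1 / (N : ℝ) ^ (univ.image x).card)) =
        (∑ x ∈ univ.filter (fun x : Fin d → Fin N =>
        (univ.image x).card = i), (infl f x : ℝ)) * (1 / (N : ℝ) ^ i) := by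
        rw [sum_mul]
        refine sum_congr rfl fun x hx => ?_
        rw [(mem_filter.1 hx).2]
      rw [h2]
      rcases Nat.eq_zero_or_pos i with h0 | h0
      · have h3 : (univ.filter (fun x : Fin d → Fin N => (univ.image x).card = i)) = ∅ := by
          ext x
          simp only [mem_filter, mem_univ, true_and, notMem_empty, iff_false]
          rw [h0, card_eq_zero]
          intro h
          have : x ⟨0, hd⟩ ∈ univ.image x := mem_image_of_mem _ (mem_univ _)
          rw [h] at this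
          exact notMem_empty _ this
        rw [h3, sum_empty, zero_mul]
        positivity
      · have h3 := hinf i h0 (Nat.lt_succ_iff.1 (mem_range.1 hi))
        have h4 : min η₀ (η₀ / ((2 * n) ^ d * (d + 1))) ≤ η₀ / ((2 * n) ^ d * (d + 1)) :=
          min_le_right _ _
        rw [← hW] at h3
        calc _ ≤ (min η₀ (η₀ / ((2 * n) ^ d * (d + 1))) * N ^ i * W) * (1 / (N : ℝ) ^ i) :=
              mul_le_mul_of_nonneg_right h3 (by positivity)
          _ = min η₀ (η₀ / ((2 * n) ^ d * (d + 1))) * W := by field_simp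
          _ ≤ _ := mul_le_mul_of_nonneg_right h4 hW0.le
    refine (sum_le_sum h1).trans (le_of_eq ?_)
    rw [sum_const, card_range, nsmul_eq_mul]
    push_cast
    ring
  refine hM₀ M hMM N (fun j => univ.filter fun a => π a ∈ T hMn j) ?_ ?_ τ f c R F S ?_ hF hFc ?_
  · intro j
    refine Eq.trans ?_ (card_T hMn j)
    refine card_bij' (fun a _ => π a) (fun a _ => π.symm a) ?_ ?_ ?_ ?_
    · intro a ha
      exact (mem_filter.1 ha).2
    · intro a ha
      rw [mem_filter, Equiv.apply_symm_apply]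
      exact ⟨mem_univ _, ha⟩
    · intro a _
      exact π.symm_apply_apply a
    · intro a _
      exact π.apply_symm_apply a
  · intro j k hjk
    rw [Finset.disjoint_left]
    intro a ha ha'
    exact Finset.disjoint_left.1 (T_disj hMn hjk) (mem_filter.1 ha).2 (mem_filter.1 ha').2
  · refine hπ.trans ?_
    rw [← hW]
    calc (2 * (n : ℝ)) ^ d * M * ∑ x : Fin d → Fin N,
          (infl f x : ℝ) * (1 / (N : ℝ) ^ (univ.image x).card)
        ≤ (2 * (n : ℝ)) ^ d * M * ((d + 1) * (η₀ / ((2 * n) ^ d * (d + 1)) * W)) :=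
          mul_le_mul_of_nonneg_left hsum (by positivity)
      _ = η₀ * M * W := by
          field_simp
  · refine hFS.trans ?_
    exact mul_le_mul_of_nonneg_right (min_le_left _ _) (by positivity)

end Pool.Agent.X79.HJ
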