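import Mathlib
import Pool.Agent.X79.HJ.Avg

set_option autoImplicit false

/-!
Families defined by functions of low average sensitivity, signs of functions with differences of
constant sign, De Morgan formulas, and polynomials with values in a finite abelian group.
-/

namespace Pool.Agent.X79.HJ

open Finset Pool.Agent.TH484.PH Pool.Agent.H720R3

/-- the cells with `i` different coordinates -/
def cls (N d i : ℕ) : Finset (Fin d → Fin N) :=
  univ.filter (fun x : Fin d → Fin N => (univ.image x).card = i)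

lemma card_cls {N d i : ℕ} (hi : i ≤ d) (hd : 1 ≤ d) : (cls N d i).card ≤ N ^ i * d ^ d := by
  classical
  have h1 : cls N d i ⊆ (powersetCard i (univ : Finset (Fin N))).biUnion fun T => pw d T := by
    intro x hx
    rw [cls, mem_filter] at hx
    rw [mem_biUnion]
    refine ⟨univ.image x, mem_powersetCard.2 ⟨subset_univ _, hx.2⟩, ?_⟩
    rw [mem_pw]
    exact fun t => mem_image_of_mem _ (mem_univ t)
  refine (card_le_card h1).trans (card_biUnion_le.trans ?_)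
  have h2 : ∀ T ∈ powersetCard i (univ : Finset (Fin N)), (pw d T).card ≤ d ^ d := by
    intro T hT
    rw [pw, Fintype.card_piFinset]
    simp only [prod_const, card_univ, Fintype.card_fin]
    rw [(mem_powersetCard.1 hT).2]
    exact Nat.pow_le_pow_left hi d
  refine (sum_le_sum h2).trans ?_
  rw [sum_const, card_powersetCard, card_univ, Fintype.card_fin, smul_eq_mul]
  exact Nat.mul_le_mul_right _ (Nat.choose_le_pow N i)

lemma rp (k : ℕ) (a : ℝ) (ha : 0 ≤ a) : (a ^ (1 - 1 / 2 ^ k : ℝ)) ^ (2 ^ k) = a ^ (2 ^ k - 1) := by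
  have h1 : 1 ≤ 2 ^ k := Nat.one_le_two_pow
  rw [← Real.rpow_natCast, ← Real.rpow_mul ha, ← Real.rpow_natCast a (2 ^ k - 1), Nat.cast_sub h1]
  congr 1
  push_cast
  field_simp

/-- the influences of the tuple of signs -/
lemma signs {N d i k s : ℕ} (hd : 1 ≤ d) (hi1 : 1 ≤ i) (hi : i ≤ d) (hN : 1 ≤ N) (η ζ : ℝ)
    (hζ : 0 < ζ) (hη : η ≤ (ζ / d ^ d) ^ (2 ^ k)) (h : Fin s → Finset (Fin d → Fin N) → ℝ)
    (hs : (s : ℝ) ^ (2 ^ k) ≤ η * N) (hh : ∀ j, ∃ l, 1 ≤ l ∧ l ≤ k ∧ Reg l (h j)) :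
    ∑ x ∈ cls N d i, (infl (fun A (j : Fin s) => 0 < h j A) x : ℝ) ≤ ζ * N ^ i * 2 ^ (N ^ d) := by
  classical
  have hNR : (1 : ℝ) ≤ N := by exact_mod_cast hN
  have hdR : (1 : ℝ) ≤ d := by exact_mod_cast hd
  obtain ⟨W, hW⟩ : ∃ W : ℝ, W = 2 ^ (N ^ d) := ⟨_, rfl⟩
  have hW0 : 0 < W := by rw [hW]; positivity
  rw [← hW]
  rcases Nat.eq_zero_or_pos (cls N d i).card with h0 | h0
  · rw [card_eq_zero.1 h0, sum_empty]
    positivity
  have h1 : ∑ x ∈ cls N d i, (infl (fun A (j : Fin s) => 0 < h j A) x : ℝ) ≤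
      ∑ j : Fin s, ∑ x ∈ cls N d i, (Inf (fun A => 0 < h j A) x : ℝ) := by
    rw [sum_comm]
    refine sum_le_sum fun x _ => ?_
    have h2 := infl_pi (fun (j : Fin s) (A : Finset (Fin d → Fin N)) => 0 < h j A) x
    have h3 : ∀ j : Fin s, infl (fun A => 0 < h j A) x = Inf (fun A => 0 < h j A) x :=
      fun j => infl_eq_Inf _ _
    rw [sum_congr rfl fun j _ => h3 j] at h2
    exact_mod_cast h2
  have h2 : ∀ j : Fin s, ∑ x ∈ cls N d i, (Inf (fun A => 0 < h j A) x : ℝ) ≤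
      ((cls N d i).card : ℝ) ^ (1 - 1 / 2 ^ k : ℝ) * W := by
    intro j
    obtain ⟨l, hl1, hl2, hl3⟩ := hh j
    have := reg_infl hl1 hl2 hl3 (cls N d i) h0
    rw [hW]
    simpa using this
  refine h1.trans ((sum_le_sum fun j _ => h2 j).trans ?_)
  rw [sum_const, card_univ, Fintype.card_fin, nsmul_eq_mul, ← mul_assoc]
  refine mul_le_mul_of_nonneg_right ?_ hW0.le
  obtain ⟨a, ha⟩ : ∃ a : ℝ, a = ((cls N d i).card : ℝ) := ⟨_, rfl⟩
  have ha0 : 0 ≤ a := by rw [ha]; exact Nat.cast_nonneg _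
  have ha1 : a ≤ N ^ i * d ^ d := by
    rw [ha]
    exact_mod_cast card_cls (N := N) hi hd
  rw [← ha]
  have h1k : 1 ≤ 2 ^ k := Nat.one_le_two_pow
  refine le_of_pow_le_pow_left₀ (n := 2 ^ k) (by omega) (by positivity) ?_
  rw [mul_pow, rp k a ha0]
  have hη0 : 0 ≤ η * N := le_trans (by positivity) hs
  have hη1 : 0 ≤ η := by
    by_contra hneg
    have : η * N < 0 := mul_neg_of_neg_of_pos (not_le.1 hneg) (by linarith)
    linarith
  calc (s : ℝ) ^ 2 ^ k * a ^ (2 ^ k - 1)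
      ≤ (η * N) * ((N : ℝ) ^ i * d ^ d) ^ (2 ^ k - 1) :=
        mul_le_mul hs (pow_le_pow_left₀ ha0 ha1 _) (by positivity) hη0
    _ ≤ (η * (N ^ i * d ^ d)) * ((N : ℝ) ^ i * d ^ d) ^ (2 ^ k - 1) := by
        refine mul_le_mul_of_nonneg_right (mul_le_mul_of_nonneg_left ?_ hη1) (by positivity)
        have h3 : (N : ℝ) ≤ N ^ i := by
          calc (N : ℝ) = N ^ 1 := (pow_one _).symm
            _ ≤ N ^ i := pow_le_pow_right₀ hNR hi1
        have h4 : (1 : ℝ) ≤ (d : ℝ) ^ d := one_le_pow₀ hdR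
        have h5 : (0 : ℝ) ≤ (N : ℝ) ^ i := by positivity
        nlinarith
    _ = η * ((N : ℝ) ^ i * d ^ d) ^ (2 ^ k) := by
        rw [mul_assoc, ← pow_succ']
        congr 2
        omega
    _ ≤ (ζ / d ^ d) ^ (2 ^ k) * ((N : ℝ) ^ i * d ^ d) ^ (2 ^ k) :=
        mul_le_mul_of_nonneg_right hη (by positivity)
    _ = (ζ * N ^ i) ^ 2 ^ k := by
        rw [← mul_pow]
        congr 1
        field_simp

/-- the influences of the tuple of formulas -/
lemma forms {N d i t : ℕ} (η ζ : ℝ) (hζ : 0 < ζ) (hη : η ≤ ζ ^ 2)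
    (φ : Fin t → Finset (Fin d → Fin N) → Prop) (L : Fin t → ℕ)
    (hφ : ∀ j, Khr (cls N d i) (L j) (φ j)) (hL : ∀ j, (t : ℝ) ^ 2 * L j ≤ η * N ^ (2 * i)) :
    ∑ x ∈ cls N d i, (infl (fun A (j : Fin t) => φ j A) x : ℝ) ≤ ζ * N ^ i * 2 ^ (N ^ d) := by
  classical
  obtain ⟨W, hW⟩ : ∃ W : ℝ, W = 2 ^ (N ^ d) := ⟨_, rfl⟩
  have hW0 : 0 < W := by rw [hW]; positivity
  rw [← hW]
  have h1 : ∑ x ∈ cls N d i, (infl (fun A (j : Fin t) => φ j A) x : ℝ) ≤
      ∑ j : Fin t, ∑ x ∈ cls N d i, (infl (φ j) x : ℝ) := by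
    rw [sum_comm]
    refine sum_le_sum fun x _ => ?_
    have h2 := infl_pi (fun (j : Fin t) (A : Finset (Fin d → Fin N)) => φ j A) x
    exact_mod_cast h2
  have h2 : ∀ j : Fin t, ∑ x ∈ cls N d i, (infl (φ j) x : ℝ) ≤ (ζ * N ^ i / t) * W := by
    intro j
    have ht : (0 : ℝ) < t := by
      have := j.2
      exact_mod_cast (by omega : 0 < t)
    have h3 := (hφ j).infl_le_sqrt
    have h4 : (2 : ℝ) ^ Fintype.card (Fin d → Fin N) = W := by rw [hW]; simp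
    rw [h4] at h3
    refine h3.trans (mul_le_mul_of_nonneg_right ?_ hW0.le)
    rw [le_div_iff₀ ht]
    refine abs_le_of_sq_le_sq' ?_ (by positivity) |>.2
    rw [mul_pow, Real.sq_sqrt (Nat.cast_nonneg _), mul_pow, ← pow_mul, mul_comm i 2, mul_comm]
    refine (hL j).trans ?_
    exact mul_le_mul_of_nonneg_right hη (by positivity)
  refine h1.trans ((sum_le_sum fun j _ => h2 j).trans ?_)
  rw [sum_const, card_univ, Fintype.card_fin, nsmul_eq_mul]
  rcases Nat.eq_zero_or_pos t with ht | ht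
  · rw [ht]
    simp only [Nat.cast_zero, zero_mul]
    positivity
  · have ht' : (0 : ℝ) < t := by exact_mod_cast ht
    rw [← mul_assoc, mul_div_cancel₀ _ ht'.ne']

theorem main (d : ℕ) (hd : 1 ≤ d) (D k : ℕ) (G : Type) [AddCommGroup G] [Finite G] (δ : ℝ)
    (hδ : 0 < δ) :
    ∃ η : ℝ, 0 < η ∧ ∃ N₀ : ℕ, ∀ N : ℕ, N₀ ≤ N →
      ∀ (τ : Type) (f : Finset (Fin d → Fin N) → τ)
        (s : ℕ) (h : Fin s → Finset (Fin d → Fin N) → ℝ)
        (t : ℕ) (φ : Fin t → Finset (Fin d → Fin N) → Prop) (L : Fin t → ℕ → ℕ)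
        (c : Finset (Fin d → Fin N) → G)
        (R : τ → (Fin s → Prop) → (Fin t → Prop) → G → Prop)
        (F S : Finset (Finset (Fin d → Fin N))),
        (∀ i, 1 ≤ i → i ≤ d → ∑ x ∈ cls N d i, (infl f x : ℝ) ≤ η * N ^ i * 2 ^ (N ^ d)) →
        (s : ℝ) ^ (2 ^ k) ≤ η * N → (∀ j, ∃ l, 1 ≤ l ∧ l ≤ k ∧ Reg l (h j)) →
        (∀ j i, 1 ≤ i → i ≤ d → Khr (cls N d i) (L j i) (φ j)) →
        (∀ j i, 1 ≤ i → i ≤ d → (t : ℝ) ^ 2 * L j i ≤ η * N ^ (2 * i)) →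
        (∀ A, A ∈ F ↔ R (f A) (fun j => 0 < h j A) (fun j => φ j A) (poly D c A)) →
        δ * (2 : ℝ) ^ (N ^ d) ≤ F.card → ((F \ S).card : ℝ) ≤ η * (2 : ℝ) ^ (N ^ d) →
            ∃ A ∈ S, ∃ γ : Finset (Fin N), γ.Nonempty ∧ Disjoint A (pw d γ) ∧
              A ∪ pw d γ ∈ S := by
  obtain ⟨η₀, hη₀, N₀, hN₀⟩ := avg d hd D G δ hδ
  have hdR : (1 : ℝ) ≤ d := by exact_mod_cast hd
  refine ⟨min (η₀ / 3) (min (((η₀ / 3) / d ^ d) ^ (2 ^ k)) ((η₀ / 3) ^ 2)),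
    lt_min (by positivity) (lt_min (by positivity) (by positivity)), max N₀ 1,
    fun N hN τ f s h t φ L c R F S hf hs hh hφ hL hF hFc hFS => ?_⟩
  obtain ⟨η, hη⟩ : ∃ η : ℝ, η = min (η₀ / 3) (min (((η₀ / 3) / d ^ d) ^ (2 ^ k))
    ((η₀ / 3) ^ 2)) := ⟨_, rfl⟩
  rw [← hη] at hf hs hL hFS
  have e1 : η ≤ η₀ / 3 := by rw [hη]; exact min_le_left _ _
  have e2 : η ≤ ((η₀ / 3) / d ^ d) ^ (2 ^ k) := by
    rw [hη]; exact (min_le_right _ _).trans (min_le_left _ _)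
  have e3 : η ≤ (η₀ / 3) ^ 2 := by
    rw [hη]; exact (min_le_right _ _).trans (min_le_right _ _)
  have hN1 : 1 ≤ N := le_trans (le_max_right _ _) hN
  have hWpos : (0 : ℝ) < 2 ^ (N ^ d) := by positivity
  refine hN₀ N (le_trans (le_max_left _ _) hN) (τ × ((Fin s → Prop) × (Fin t → Prop)))
    (fun A => (f A, ((fun j => 0 < h j A), (fun j => φ j A)))) c
    (fun z g => R z.1 z.2.1 z.2.2 g) F S ?_ hF hFc ?_
  · intro i hi1 hi2
    have h1 := hf i hi1 hi2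
    have h2 := signs hd hi1 hi2 hN1 η (η₀ / 3) (by positivity) e2 h hs hh
    have h3 := forms η (η₀ / 3) (by positivity) e3 φ (fun j => L j i)
      (fun j => hφ j i hi1 hi2) (fun j => hL j i hi1 hi2)
    have h4 : ∀ x, (infl (fun A => (f A, ((fun j => 0 < h j A), (fun j => φ j A)))) x : ℝ) ≤
        infl f x + (infl (fun A (j : Fin s) => 0 < h j A) x +
          infl (fun A (j : Fin t) => φ j A) x) := by
      intro x
      have a := infl_pair f (fun A => ((fun j => 0 < h j A), (fun j => φ j A))) x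
      have b := infl_pair (fun A (j : Fin s) => 0 < h j A) (fun A (j : Fin t) => φ j A) x
      exact_mod_cast a.trans (Nat.add_le_add_left b _)
    have h5 := sum_le_sum (s := cls N d i) fun x _ => h4 x
    rw [sum_add_distrib, sum_add_distrib] at h5
    have h6 : η * N ^ i * 2 ^ (N ^ d) ≤ (η₀ / 3) * (N : ℝ) ^ i * 2 ^ (N ^ d) :=
      mul_le_mul_of_nonneg_right (mul_le_mul_of_nonneg_right e1 (by positivity)) hWpos.le
    have h7 : η₀ * (N : ℝ) ^ i * 2 ^ (N ^ d) = η₀ / 3 * N ^ i * 2 ^ (N ^ d) +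
        (η₀ / 3 * N ^ i * 2 ^ (N ^ d) + η₀ / 3 * N ^ i * 2 ^ (N ^ d)) := by ring
    rw [h7]
    refine h5.trans (add_le_add (h1.trans h6) (add_le_add h2 h3))
  · refine hFS.trans (mul_le_mul_of_nonneg_right ?_ hWpos.le)
    linarith

end Pool.Agent.X79.HJ
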