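import Mathlib
import Pool.Agent.TH484.PH.Crit
import Pool.Agent.X79.HJ.RelGen
import Pool.Agent.X79.HJ.Fin

set_option autoImplicit false

/-!
The critical density relative to families of low average sensitivity.
-/

namespace Pool.Agent.X79.HJ

open Finset Pool.Agent.TH484.PH Pool.Agent.H720R3

/-- random blocks of small total influence -/
lemma exists_blocks (d : ℕ) (hd : 1 ≤ d) (n : ℕ) (hn : 1 ≤ n) (η₀ : ℝ) (hη₀ : 0 < η₀) (M₀ : ℕ) :
    ∃ η : ℝ, 0 < η ∧ ∃ N₀ : ℕ, ∀ N : ℕ, N₀ ≤ N → ∀ (τ : Type) (f : Finset (Fin d → Fin N) → τ),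
      (∀ i, 1 ≤ i → i ≤ d → (∑ x ∈ univ.filter (fun x : Fin d → Fin N => (univ.image x).card = i),
          (infl f x : ℝ)) ≤ η * N ^ i * 2 ^ (N ^ d)) →
      ∃ M, M₀ ≤ M ∧ ∃ T : Fin M → Finset (Fin N), (∀ j, (T j).card = n) ∧
        (∀ j k, j ≠ k → Disjoint (T j) (T k)) ∧
        ∑ j : Fin M, ∑ e ∈ pw d (T j), (infl f e : ℝ) ≤ η₀ * M * 2 ^ (N ^ d) := by
  classical
  have hnR : (1 : ℝ) ≤ n := by exact_mod_cast hn
  refine ⟨η₀ / ((2 * n) ^ d * (d + 1)), by positivity,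
    max (M₀ * n) (max (2 * d) 1), fun N hN τ f hinf => ?_⟩
  have hN1 : M₀ * n ≤ N := le_trans (le_max_left _ _) hN
  have hN2 : 2 * d ≤ N := le_trans (le_trans (le_max_left _ _) (le_max_right _ _)) hN
  have hN3 : 1 ≤ N := le_trans (le_trans (le_max_right _ _) (le_max_right _ _)) hN
  obtain ⟨M, hM⟩ : ∃ M, M = N / n := ⟨_, rfl⟩
  have hMM : M₀ ≤ M := by
    rw [hM]
    exact (Nat.le_div_iff_mul_le (by omega)).2 hN1
  have hMn : M * n ≤ N := by
    rw [hM]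
    exact Nat.div_mul_le_self N n
  obtain ⟨π, hπ⟩ := exists_perm hn hN2 hN3 (T hMn) (card_T hMn) (fun x => (infl f x : ℝ))
    (fun x => Nat.cast_nonneg _)
  have hNR : (0 : ℝ) < N := by exact_mod_cast hN3
  obtain ⟨W, hW⟩ : ∃ W : ℝ, W = 2 ^ (N ^ d) := ⟨_, rfl⟩
  have hW0 : 0 < W := by rw [hW]; positivity
  have hsum : ∑ x : Fin d → Fin N, (infl f x : ℝ) * (1 / (N : ℝ) ^ (univ.image x).card) ≤
      (d + 1) * (η₀ / ((2 * n) ^ d * (d + 1)) * W) := by
    rw [← sum_fiberwise_of_maps_to (s := (univ : Finset (Fin d → Fin N))) (t := range (d + 1))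
      (g := fun x : Fin d → Fin N => (univ.image x).card)
      (fun x _ => mem_range.2 (Nat.lt_succ_of_le (card_image_le.trans (by simp))))]
    have h1 : ∀ i ∈ range (d + 1), (∑ x ∈ univ.filter (fun x : Fin d → Fin N =>
        (univ.image x).card = i), (infl f x : ℝ) * (1 / (N : ℝ) ^ (univ.image x).card)) ≤
        η₀ / ((2 * n) ^ d * (d + 1)) * W := by
      intro i hi
      have h2 : (∑ x ∈ univ.filter (fun x : Fin d → Fin N =>
        (univ.image x).card = i), (infl f x : ℝ) * (1 / (N : ℝ) ^ (univ.image x).card)) =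
        (∑ x ∈ univ.filter (fun x : Fin d → Fin N =>
        (univ.image x).card = i), (infl f x : ℝ)) * (1 / (N : ℝ) ^ i) := by
        rw [sum_mul]
        refine sum_congr rfl fun x hx => ?_
        rw [(mem_filter.1 hx).2]
      rw [h2]
      rcases Nat.eq_zero_or_pos i with h0 | h0
      · have h3 : (univ.filter (fun x : Fin d → Fin N => (univ.image x).card = i)) = ∅ := by
          ext x
          simp only [mem_filter, mem_univ, true_and, notMem_empty, iff_false]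
          rw [h0, card_eq_zero]
          intro h
          have : x ⟨0, hd⟩ ∈ univ.image x := mem_image_of_mem _ (mem_univ _)
          rw [h] at this
          exact notMem_empty _ this
        rw [h3, sum_empty, zero_mul]
        positivity
      · have h3 := hinf i h0 (Nat.lt_succ_iff.1 (mem_range.1 hi))
        rw [← hW] at h3
        calc _ ≤ (η₀ / ((2 * n) ^ d * (d + 1)) * N ^ i * W) * (1 / (N : ℝ) ^ i) :=
              mul_le_mul_of_nonneg_right h3 (by positivity)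
          _ = _ := by field_simp
    refine (sum_le_sum h1).trans (le_of_eq ?_)
    rw [sum_const, card_range, nsmul_eq_mul]
    push_cast
    ring
  refine ⟨M, hMM, fun j => univ.filter fun a => π a ∈ T hMn j, ?_, ?_, ?_⟩
  · intro j
    refine Eq.trans ?_ (card_T hMn j)
    refine card_bij' (fun a _ => π a) (fun a _ => π.symm a) ?_ ?_ ?_ ?_
    · intro a ha
      exact (mem_filter.1 ha).2
    · intro a ha
      rw [mem_filter, Equiv.apply_symm_apply]
      exact ⟨mem_univ _, ha⟩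
    · intro a _
      exact π.symm_apply_apply a
    · intro a _
      exact π.apply_symm_apply a
  · intro j k hjk
    rw [Finset.disjoint_left]
    intro a ha ha'
    exact Finset.disjoint_left.1 (T_disj hMn hjk) (mem_filter.1 ha).2 (mem_filter.1 ha').2
  · refine hπ.trans ?_
    rw [← hW]
    calc (2 * (n : ℝ)) ^ d * M * ∑ x : Fin d → Fin N,
          (infl f x : ℝ) * (1 / (N : ℝ) ^ (univ.image x).card)
        ≤ (2 * (n : ℝ)) ^ d * M * ((d + 1) * (η₀ / ((2 * n) ^ d * (d + 1)) * W)) :=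
          mul_le_mul_of_nonneg_left hsum (by positivity)
      _ = η₀ * M * W := by
          field_simp

/-- the data of a structured family -/
structure Data (η : ℝ) (d k N : ℕ) where
  τ : Type
  f : Finset (Fin d → Fin N) → τ
  s : ℕ
  h : Fin s → Finset (Fin d → Fin N) → ℝ
  t : ℕ
  φ : Fin t → Finset (Fin d → Fin N) → Prop
  L : Fin t → ℕ → ℕ
  hf : ∀ i, 1 ≤ i → i ≤ d → ∑ x ∈ cls N d i, (infl f x : ℝ) ≤ η * N ^ i * 2 ^ (N ^ d)
  hs : (s : ℝ) ^ (2 ^ k) ≤ η * N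
  hh : ∀ j, ∃ l, 1 ≤ l ∧ l ≤ k ∧ Reg l (h j)
  hφ : ∀ j i, 1 ≤ i → i ≤ d → Khr (cls N d i) (L j i) (φ j)
  hL : ∀ j i, 1 ≤ i → i ≤ d → (t : ℝ) ^ 2 * L j i ≤ η * N ^ (2 * i)

/-- the function of a structured family -/
def Data.fn {η : ℝ} {d k N : ℕ} (X : Data η d k N) (A : Finset (Fin d → Fin N)) :
    X.τ × ((Fin X.s → Prop) × (Fin X.t → Prop)) :=
  (X.f A, ((fun j => 0 < X.h j A), (fun j => X.φ j A)))

/-- its influences -/
lemma total (d : ℕ) (hd : 1 ≤ d) (k : ℕ) (η₀ : ℝ) (hη₀ : 0 < η₀) :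
    ∃ η : ℝ, 0 < η ∧ ∀ N : ℕ, 1 ≤ N → ∀ X : Data η d k N,
      ∀ i, 1 ≤ i → i ≤ d → (∑ x ∈ univ.filter (fun x : Fin d → Fin N => (univ.image x).card = i),
          (infl X.fn x : ℝ)) ≤ η₀ * N ^ i * 2 ^ (N ^ d) := by
  have hdR : (1 : ℝ) ≤ d := by exact_mod_cast hd
  obtain ⟨η, hη⟩ : ∃ η : ℝ, η = min (η₀ / 3) (min (((η₀ / 3) / d ^ d) ^ (2 ^ k))
    ((η₀ / 3) ^ 2)) := ⟨_, rfl⟩
  have hη0 : 0 < η := by
    rw [hη]
    exact lt_min (by positivity) (lt_min (by positivity) (by positivity))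
  refine ⟨η, hη0, fun N hN1 X => ?_⟩
  have e1 : η ≤ η₀ / 3 := by rw [hη]; exact min_le_left _ _
  have e2 : η ≤ ((η₀ / 3) / d ^ d) ^ (2 ^ k) := by
    rw [hη]; exact (min_le_right _ _).trans (min_le_left _ _)
  have e3 : η ≤ (η₀ / 3) ^ 2 := by
    rw [hη]; exact (min_le_right _ _).trans (min_le_right _ _)
  have hWpos : (0 : ℝ) < 2 ^ (N ^ d) := by positivity
  intro i hi1 hi2
  have h1 := X.hf i hi1 hi2
  have h2 := signs hd hi1 hi2 hN1 η (η₀ / 3) (by positivity) e2 X.h X.hs X.hh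
  have h3 := forms η (η₀ / 3) (by positivity) e3 X.φ (fun j => X.L j i)
    (fun j => X.hφ j i hi1 hi2) (fun j => X.hL j i hi1 hi2)
  have h4 : ∀ x, (infl X.fn x : ℝ) ≤
      infl X.f x + (infl (fun A (j : Fin X.s) => 0 < X.h j A) x +
        infl (fun A (j : Fin X.t) => X.φ j A) x) := by
    intro x
    have a := infl_pair X.f (fun A => ((fun j => 0 < X.h j A), (fun j => X.φ j A))) x
    have b := infl_pair (fun A (j : Fin X.s) => 0 < X.h j A) (fun A (j : Fin X.t) => X.φ j A) x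
    exact_mod_cast a.trans (Nat.add_le_add_left b _)
  have h5 := sum_le_sum (s := cls N d i) fun x _ => h4 x
  rw [sum_add_distrib, sum_add_distrib] at h5
  have h6 : η * N ^ i * 2 ^ (N ^ d) ≤ (η₀ / 3) * (N : ℝ) ^ i * 2 ^ (N ^ d) :=
    mul_le_mul_of_nonneg_right (mul_le_mul_of_nonneg_right e1 (by positivity)) hWpos.le
  have h7 : η₀ * (N : ℝ) ^ i * 2 ^ (N ^ d) = η₀ / 3 * N ^ i * 2 ^ (N ^ d) +
      (η₀ / 3 * N ^ i * 2 ^ (N ^ d) + η₀ / 3 * N ^ i * 2 ^ (N ^ d)) := by ring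
  rw [h7]
  refine h5.trans (add_le_add (h1.trans h6) (add_le_add h2 h3))

/-- structured families -/
def StructLS (η : ℝ) (D k : ℕ) (G : Type) [AddCommGroup G] {d N : ℕ}
    (F : Finset (Finset (Fin d → Fin N))) : Prop :=
  ∃ (X : Data η d k N) (c : Finset (Fin d → Fin N) → G)
    (R : X.τ × ((Fin X.s → Prop) × (Fin X.t → Prop)) → G → Prop),
    (∀ T, c T ≠ 0 → ∀ x ∈ T, ∀ y ∈ T, ∃ i j, x i = y j) ∧ ∀ A, A ∈ F ↔ R (X.fn A) (poly D c A)

lemma structLS_compl {η : ℝ} {D k : ℕ} {G : Type} [AddCommGroup G] {d N : ℕ}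
    {F : Finset (Finset (Fin d → Fin N))} (hF : StructLS η D k G F) :
    StructLS η D k G Fᶜ := by
  obtain ⟨X, c, R, h1, h2⟩ := hF
  refine ⟨X, c, fun a g => ¬ R a g, h1, fun A => ?_⟩
  rw [mem_compl, h2]

theorem critLS (d : ℕ) (hd : 1 ≤ d) (t : ℝ) (ht0 : 0 ≤ t)
    (hvec : ∀ δ : ℝ, t < δ → ∃ N₀ : ℕ, ∀ N : ℕ, N₀ ≤ N → ∀ S : Finset (Finset (Fin d → Fin N)),
      δ * (2 : ℝ) ^ (N ^ d) < S.card → GoodF S) : ∃ θd : ℝ, 0 ≤ θd ∧
    θd ≤ t ∧
    ∀ (D k : ℕ) (G : Type) [AddCommGroup G] [Finite G],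
      (∀ θ δ : ℝ, θd < θ → 0 < δ → ∃ η : ℝ, 0 < η ∧ ∃ N₀ : ℕ, ∀ N : ℕ, N₀ ≤ N →
        ∀ F S : Finset (Finset (Fin d → Fin N)), StructLS η D k G F →
          δ * (2 : ℝ) ^ (N ^ d) ≤ F.card → θ * F.card ≤ (F ∩ S).card → GoodF S) ∧
      (∀ ε : ℝ, 0 < ε → ∃ η : ℝ, 0 < η ∧ ∃ N₀ : ℕ, ∀ N : ℕ, N₀ ≤ N →
        ∃ S : Finset (Finset (Fin d → Fin N)), ¬ GoodF S ∧
          ∀ F : Finset (Finset (Fin d → Fin N)), StructLS η D k G F →
            |((F ∩ S).card : ℝ) - θd * F.card| ≤ ε * (2 : ℝ) ^ (N ^ d)) := by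
  classical
  obtain ⟨Ω, hΩ⟩ : ∃ Ω : Set ℝ, Ω = {θ' | 0 ≤ θ' ∧ ∃ m : ℕ, 1 ≤ m ∧
      ∀ S : Finset (Finset (Fin d → Fin m)), θ' * (2 : ℝ) ^ (m ^ d) < S.card → GoodF S} :=
    ⟨_, rfl⟩
  have hΩm : ∀ θ', t < θ' → θ' ∈ Ω := by
    intro θ' hθ'
    obtain ⟨N₀, hN₀⟩ := hvec θ' hθ'
    rw [hΩ]
    refine ⟨?_, max N₀ 1, le_max_right _ _, hN₀ _ (le_max_left _ _)⟩
    linarith
  have hbdd : BddBelow Ω := ⟨0, fun x hx => by
    rw [hΩ] at hx
    exact hx.1⟩
  have hne : Ω.Nonempty := ⟨t + 1, hΩm _ (by linarith)⟩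
  obtain ⟨θd, hθd⟩ : ∃ θd : ℝ, θd = sInf Ω := ⟨_, rfl⟩
  have h0 : 0 ≤ θd := by
    rw [hθd]
    refine le_csInf hne fun x hx => ?_
    rw [hΩ] at hx
    exact hx.1
  have hle : θd ≤ t := by
    refine le_of_forall_gt_imp_ge_of_dense fun x hx => ?_
    rw [hθd]
    exact csInf_le hbdd (hΩm x hx)
  refine ⟨θd, h0, hle, fun D k G _ _ => ?_⟩
  have hA : ∀ θ δ : ℝ, θd < θ → 0 < δ → ∃ η : ℝ, 0 < η ∧ ∃ N₀ : ℕ, ∀ N : ℕ, N₀ ≤ N →
        ∀ F S : Finset (Finset (Fin d → Fin N)), StructLS η D k G F →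
          δ * (2 : ℝ) ^ (N ^ d) ≤ F.card → θ * F.card ≤ (F ∩ S).card → GoodF S := by
    intro θ δ hθ hδ
    rw [hθd] at hθ
    obtain ⟨θ', hθ'Ω, hθ'⟩ := exists_lt_of_csInf_lt hne hθ
    rw [hΩ] at hθ'Ω
    obtain ⟨h1, m, hm, h2⟩ := hθ'Ω
    obtain ⟨n, hn, hgen⟩ := relgen d hd θ θ' h1 hθ' m hm h2 D G
    obtain ⟨η₀, hη₀, M₀, hM₀⟩ := hgen δ hδ
    obtain ⟨η₁, hη₁, N₀, hN₀⟩ := exists_blocks d hd n hn η₀ hη₀ M₀
    obtain ⟨η, hη, htot⟩ := total d hd k η₁ hη₁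
    refine ⟨η, hη, max N₀ 1, fun N hN F S hF hFc hFS => ?_⟩
    obtain ⟨X, c, R, h3, h4⟩ := hF
    obtain ⟨M, hM, T, hT1, hT2, hT3⟩ := hN₀ N (le_trans (le_max_left _ _) hN) _ X.fn
      (htot N (le_trans (le_max_right _ _) hN) X)
    exact hM₀ M hM N T hT1 hT2 _ X.fn c R F S h3 hT3 h4 hFc hFS
  refine ⟨hA, fun ε hε => ?_⟩
  obtain ⟨κ, hκ⟩ : ∃ κ : ℝ, κ = ε / 2 := ⟨_, rfl⟩
  have hκ0 : 0 < κ := by rw [hκ]; linarith
  have hempty : ∀ N : ℕ, ¬ GoodF (∅ : Finset (Finset (Fin d → Fin N))) := by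
    rintro N ⟨A, hA, -⟩
    exact absurd hA (notMem_empty _)
  have hFW : ∀ (N : ℕ) (F : Finset (Finset (Fin d → Fin N))),
      (F.card : ℝ) ≤ (2 : ℝ) ^ (N ^ d) := by
    intro N F
    have h1 : F.card ≤ Fintype.card (Finset (Fin d → Fin N)) := card_le_univ F
    rw [Fintype.card_finset] at h1
    have h2 : ((2 ^ Fintype.card (Fin d → Fin N) : ℕ) : ℝ) = (2 : ℝ) ^ (N ^ d) := by
      push_cast
      simp
    rw [← h2]
    exact_mod_cast h1
  by_cases hcase : θd - κ < 0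
  · refine ⟨1, one_pos, 0, fun N _ => ⟨∅, hempty N, fun F _ => ?_⟩⟩
    rw [inter_empty, card_empty, Nat.cast_zero, zero_sub, abs_neg, abs_of_nonneg (by positivity)]
    have hW : (0 : ℝ) < 2 ^ (N ^ d) := by positivity
    calc θd * F.card ≤ θd * 2 ^ (N ^ d) := mul_le_mul_of_nonneg_left (hFW N F) h0
      _ ≤ ε * 2 ^ (N ^ d) := mul_le_mul_of_nonneg_right (by linarith) hW.le
  · push Not at hcase
    have hnot : θd - κ ∉ Ω := by
      intro h
      have := csInf_le hbdd h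
      rw [← hθd] at this
      linarith
    obtain ⟨η, hη, N₀, hN₀⟩ := hA (θd + κ) κ (by linarith) hκ0
    refine ⟨η, hη, max N₀ 1, fun N hN => ?_⟩
    obtain ⟨W, hW⟩ : ∃ W : ℝ, W = (2 : ℝ) ^ (N ^ d) := ⟨_, rfl⟩
    have hW0 : 0 < W := by rw [hW]; positivity
    have hex : ∃ S : Finset (Finset (Fin d → Fin N)), (θd - κ) * W < S.card ∧ ¬ GoodF S := by
      by_contra hcon
      push Not at hcon
      apply hnot
      rw [hΩ]
      refine ⟨hcase, N, (le_max_right _ _).trans hN, fun S hS => ?_⟩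
      rw [← hW] at hS
      exact hcon S hS
    obtain ⟨S, hSc, hSg⟩ := hex
    refine ⟨S, hSg, ?_⟩
    have hupper : ∀ F : Finset (Finset (Fin d → Fin N)), StructLS η D k G F →
        ((F ∩ S).card : ℝ) ≤ θd * F.card + κ * W := by
      intro F hF
      have hFle : (F.card : ℝ) ≤ W := by rw [hW]; exact hFW N F
      have hnn : (0 : ℝ) ≤ F.card := Nat.cast_nonneg _
      by_cases h1 : κ * W ≤ F.card
      · by_contra hcon
        push Not at hcon
        refine hSg (hN₀ N ((le_max_left _ _).trans hN) F S hF (by rw [← hW]; exact h1) ?_)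
        have : κ * F.card ≤ κ * W := mul_le_mul_of_nonneg_left hFle hκ0.le
        nlinarith
      · push Not at h1
        have h2 : ((F ∩ S).card : ℝ) ≤ F.card := by
          exact_mod_cast card_le_card inter_subset_left
        have h3 : 0 ≤ θd * F.card := by positivity
        linarith
    intro F hF
    rw [← hW]
    have h1 := hupper F hF
    have h2 := hupper Fᶜ (structLS_compl hF)
    have h3 : ((F ∩ S).card : ℝ) + (Fᶜ ∩ S).card = S.card := by
      have h4 : (F ∩ S).card + (Fᶜ ∩ S).card = S.card := by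
        rw [← card_union_of_disjoint, ← union_inter_distrib_right, union_compl, univ_inter]
        rw [Finset.disjoint_left]
        intro x hx hx'
        exact (mem_compl.1 (mem_inter.1 hx').1) (mem_inter.1 hx).1
      exact_mod_cast h4
    have h5 : (F.card : ℝ) + (Fᶜ).card = W := by
      have h6 : F.card + (Fᶜ).card = Fintype.card (Finset (Fin d → Fin N)) :=
        card_add_card_compl F
      rw [Fintype.card_finset] at h6
      rw [hW]
      have h7 : ((2 ^ Fintype.card (Fin d → Fin N) : ℕ) : ℝ) = (2 : ℝ) ^ (N ^ d) := by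
        push_cast
        simp
      rw [← h7, ← h6]
      push_cast
      rfl
    have h8 : θd * F.card + θd * (Fᶜ).card = θd * W := by rw [← h5]; ring
    rw [abs_le]
    constructor
    · have : ε * W = κ * W + κ * W := by rw [hκ]; ring
      linarith
    · have : ε * W = κ * W + κ * W := by rw [hκ]; ring
      have h9 : 0 < κ * W := by positivity
      linarith

end Pool.Agent.X79.HJ
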